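import Mathlib
import Pool.Agent.Work.MP_44e7ab_co.TD

/-!
Problem Q1 of MP_44e7ab_co (frozen S08447): definitions and the exact statements of all modules.
Each module proves `theorem X : StX` in its own file `Q/<Module>.lean`; a module that needs another
one takes it as a hypothesis `(h : StY)`.
-/

set_option autoImplicit false

namespace Pool.Agent.Work.MP_44e7ab_co.Q

open Finset Classical
open Pool.Agent.Work.MP_44e7ab_co

/-! ## 0. Basic notions -/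

/-- two vertex sets touch: they share a vertex or an edge joins them -/
def Touch {V : Type} (G : SimpleGraph V) (A B : Finset V) : Prop :=
  ∃ x ∈ A, ∃ y ∈ B, x = y ∨ G.Adj x y

/-- cliques inside `W` have at most `c` vertices -/
def Om {V : Type} (G : SimpleGraph V) (W : Set V) (c : ℕ) : Prop :=
  ∀ C : Finset V, (C : Set V) ⊆ W → G.IsClique (C : Set V) → C.card ≤ c

/-- a path decomposition of the part `S` of `G`, all bags of size at most `k` -/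
def PathDec {V : Type} (G : SimpleGraph V) (S : Finset V) (k : ℕ) : Prop :=
  ∃ (n : ℕ) (X : Fin n → Finset V),
    (∀ i, X i ⊆ S) ∧ (∀ v ∈ S, ∃ i, v ∈ X i) ∧
    (∀ u v, u ∈ S → v ∈ S → G.Adj u v → ∃ i, u ∈ X i ∧ v ∈ X i) ∧
    (∀ v, ∀ i j l : Fin n, i ≤ j → j ≤ l → v ∈ X i → v ∈ X l → v ∈ X j) ∧
    (∀ i, (X i).card ≤ k)

/-- the class: a part of clique number at most `c` has a path decomposition with bags of size
at most `f c` -/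
def PwC (f : ℕ → ℕ) {V : Type} (G : SimpleGraph V) : Prop :=
  ∀ (S : Finset V) (c : ℕ), Om G (S : Set V) c → PathDec G S (f c)

/-- `P` meets `A` -/
def Meets {V : Type} (P A : Finset V) : Prop := ∃ x ∈ P, x ∈ A

/-! ## 1. Counting and trees (module M1) -/

/-- M1a. few touching pairs (ordered pairs) -/
def StT1 : Prop :=
  ∀ (f : ℕ → ℕ) (V : Type) [Fintype V] (G : SimpleGraph V), PwC f G →
  ∀ (ι : Type) [Fintype ι] (P : ι → Finset V) (c s : ℕ), (∀ x, ConnSet G (P x)) →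
  Om G (⋃ x, (P x : Set V)) c → (∀ v, (univ.filter (fun x => v ∈ P x)).card ≤ s) →
  (univ.filter (fun z : ι × ι => z.1 ≠ z.2 ∧ Touch G (P z.1) (P z.2))).card
    ≤ 2 * (s * f c) * Fintype.card ι

/-- M1b. bipartite version -/
def StKK : Prop :=
  ∀ (f : ℕ → ℕ) (V : Type) [Fintype V] (G : SimpleGraph V), PwC f G →
  ∀ (ι κ : Type) [Fintype ι] [Fintype κ] (A : ι → Finset V) (B : κ → Finset V) (c s : ℕ),
  (∀ x, ConnSet G (A x)) → (∀ y, ConnSet G (B y)) →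
  Om G ((⋃ x, (A x : Set V)) ∪ ⋃ y, (B y : Set V)) c →
  (∀ v, (univ.filter (fun x => v ∈ A x)).card + (univ.filter (fun y => v ∈ B y)).card ≤ s) →
  (univ.filter (fun z : ι × κ => Touch G (A z.1) (B z.2))).card
    ≤ (s * f c) * (Fintype.card ι + Fintype.card κ)

/-- M1c. no large independent bicliques -/
def StNoKnn : Prop :=
  ∀ (f : ℕ → ℕ) (V : Type) [Fintype V] (G : SimpleGraph V), PwC f G →
  ∀ c m : ℕ, 2 ≤ c → 2 * f c < m → NoKnn G m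

/-- M1d. binary trees of connected sets; nodes are lists, the children of `x` are `x ++ [b]`,
the subtree at the child `[b]` of the root consists of the lists `b :: x` -/
def StT2 : Prop :=
  ∀ (f : ℕ → ℕ) (V : Type) [Fintype V] (G : SimpleGraph V), PwC f G →
  ∀ (h : ℕ) (P : List Bool → Finset V) (c s : ℕ), (∀ x, x.length ≤ h → ConnSet G (P x)) →
  (P []).Nonempty →
  (∀ x b, x.length < h → Touch G (P x) (P (x ++ [b]))) →
  Om G {v | ∃ x : List Bool, x.length ≤ h ∧ v ∈ P x} c →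
  (∀ v, ∀ T : Finset (List Bool), (∀ x ∈ T, x.length ≤ h ∧ v ∈ P x) → T.card ≤ s) →
  h / 2 + 1 ≤ s * f c

/-- trees of connected sets in which only parents and children touch -/
structure TreeLike {V : Type} (G : SimpleGraph V) (h : ℕ) (P : List Bool → Finset V) : Prop where
  conn : ∀ x, x.length ≤ h → ConnSet G (P x)
  root : (P []).Nonempty
  touch : ∀ x b, x.length < h → Touch G (P x) (P (x ++ [b]))
  anti : ∀ x y, x.length ≤ h → y.length ≤ h → x ≠ y → (∀ b, y ≠ x ++ [b]) →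
    (∀ b, x ≠ y ++ [b]) → ¬ Touch G (P x) (P y)

/-- M1e. -/
def StTree : Prop :=
  ∀ (f : ℕ → ℕ) (V : Type) [Fintype V] (G : SimpleGraph V), PwC f G →
  ∀ (h : ℕ) (P : List Bool → Finset V) (c : ℕ), TreeLike G h P →
  (∀ x, x.length ≤ h → Om G (P x : Set V) c) →
  Om G {v | ∃ x : List Bool, x.length ≤ h ∧ v ∈ P x} (2 * c) ∧ h / 2 + 1 ≤ 2 * f (2 * c)

/-! ## 2. Finite probability (module PR) -/

/-- PRa. weighted Kovari-Sos-Turan / Sidorenko inequality for complete bipartite graphs -/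
def StKST : Prop :=
  ∀ (A B ι κ : Type) [Fintype A] [Fintype B] [Fintype ι] [Fintype κ] [Nonempty ι] [Nonempty κ]
  (p : A → ℝ) (q : B → ℝ) (w : A → B → ℝ), (∀ x, 0 ≤ p x) → (∀ y, 0 ≤ q y) →
  ∑ x, p x ≤ 1 → ∑ y, q y ≤ 1 → (∀ x y, 0 ≤ w x y) →
  (∑ x, ∑ y, p x * q y * w x y) ^ (Fintype.card ι * Fintype.card κ) ≤
    ∑ X : ι → A, ∑ Y : κ → B, (∏ i, p (X i)) * (∏ j, q (Y j)) * ∏ i, ∏ j, w (X i) (Y j)

/-- PRb. sampling `m + m` points, all pairs related, no bad pair -/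
def StKex : Prop :=
  ∀ (A B : Type) [Fintype A] [Fintype B] (m : ℕ) (p : A → ℝ) (q : B → ℝ)
  (Rel : A → B → Prop) (BA : A → A → Prop) (BB : B → B → Prop) (ρ βA βB : ℝ),
  (∀ x, 0 ≤ p x) → (∀ y, 0 ≤ q y) → ∑ x, p x ≤ 1 → ∑ y, q y ≤ 1 → 0 ≤ ρ →
  ρ ≤ ∑ x, ∑ y, p x * q y * (if Rel x y then 1 else 0) →
  ∑ x, ∑ x', p x * p x' * (if BA x x' then 1 else 0) ≤ βA →
  ∑ y, ∑ y', q y * q y' * (if BB y y' then 1 else 0) ≤ βB →
  (m : ℝ) ^ 2 * βA + (m : ℝ) ^ 2 * βB < ρ ^ (m * m) →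
  ∃ (X : Fin m → A) (Y : Fin m → B), (∀ i, 0 < p (X i)) ∧ (∀ j, 0 < q (Y j)) ∧
    (∀ i j, Rel (X i) (Y j)) ∧ (∀ i i', i ≠ i' → ¬ BA (X i) (X i')) ∧
    (∀ j j', j ≠ j' → ¬ BB (Y j) (Y j'))

/-- PRc. sampling `k` points without bad pair -/
def StSamp : Prop :=
  ∀ (A : Type) [Fintype A] (k : ℕ) (p : A → ℝ) (BA : A → A → Prop) (β : ℝ),
  (∀ x, 0 ≤ p x) → ∑ x, p x = 1 →
  ∑ x, ∑ x', p x * p x' * (if BA x x' then 1 else 0) ≤ β → (k : ℝ) ^ 2 * β < 1 →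
  ∃ X : Fin k → A, (∀ i, 0 < p (X i)) ∧ (∀ i i', i ≠ i' → ¬ BA (X i) (X i'))

/-- PRd. the averaging behind `StK3`: if every `k`-tuple with `t` bad triples (ordered, distinct
indices) has at most `C * k + k * t` related ordered pairs of distinct indices, then many pairs
force many bad triples -/
def StAvg : Prop :=
  ∀ (A : Type) [Fintype A] (k : ℕ) (C : ℝ) (p : A → ℝ) (R2 : A → A → Prop)
  (R3 : A → A → A → Prop), (∀ x, 0 ≤ p x) → ∑ x, p x = 1 →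
  (∀ X : Fin k → A, ((univ.filter (fun z : Fin k × Fin k =>
      z.1 ≠ z.2 ∧ R2 (X z.1) (X z.2))).card : ℝ) ≤ C * k + 2 * k *
      ((univ.filter (fun z : Fin k × Fin k × Fin k => z.1 ≠ z.2.1 ∧ z.1 ≠ z.2.2 ∧ z.2.1 ≠ z.2.2 ∧
        R3 (X z.1) (X z.2.1) (X z.2.2))).card : ℝ)) →
  (k : ℝ) * (k - 1) * (∑ x, ∑ y, p x * p y * (if R2 x y then 1 else 0)) ≤ C * k +
    2 * k * ((k : ℝ) ^ 3 * ∑ x, ∑ y, ∑ z, p x * p y * p z * (if R3 x y z then 1 else 0))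

/-- PRe. a subfamily of large minimum degree -/
def StCore : Prop :=
  ∀ (A : Type) [Fintype A] (p : A → ℝ) (R2 : A → A → Prop) (c : ℝ),
  (∀ x, 0 ≤ p x) → ∑ x, p x ≤ 1 → (∀ x y, R2 x y → R2 y x) → 0 < c →
  c ≤ ∑ x, ∑ y, p x * p y * (if R2 x y then 1 else 0) →
  ∃ T : Finset A, (∀ x ∈ T, 0 < p x) ∧
    c / 2 ≤ ∑ x ∈ T, ∑ y ∈ T, p x * p y * (if R2 x y then 1 else 0) ∧
    ∀ x ∈ T, c / 4 ≤ ∑ y ∈ T, p y * (if R2 x y then 1 else 0)

/-- PRf. density lemma with diagonal, mass at most 4 -/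
def StDens : Prop :=
  ∀ (m : ℕ), 2 ≤ m → ∀ ε : ℝ, 0 < ε → ∃ δ : ℝ, 0 < δ ∧
  ∀ (V : Type) [Fintype V] (G : SimpleGraph V), NoKnn G m →
  ∀ ν : V → ℝ, (∀ v, 0 ≤ ν v) → ∑ v, ν v ≤ 4 →
  (∀ X : Finset V, Small G m X → ∑ v ∈ X, ν v ≤ δ) →
  ∑ v, ∑ w, (if v = w ∨ G.Adj v w then ν v * ν w else 0) ≤ ε

/-! ## 3. Random routes (modules RA, RB, RC, RD) -/

/-- contiguous tiles `[a v, b v]`, induced -/
structure IsRoute {V : Type} (G : SimpleGraph V) (a b : V → ℕ) (Q : Finset V) : Prop where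
  disj : ∀ v ∈ Q, ∀ w ∈ Q, v ≠ w → b v ≤ a w ∨ b w ≤ a v
  next : ∀ v ∈ Q, ∀ w ∈ Q, b v ≤ a w → ∃ u ∈ Q, a u = b v ∧ G.Adj v u
  ind : ∀ v ∈ Q, ∀ w ∈ Q, G.Adj v w → a w = b v ∨ a v = b w

/-- tiles meeting the time window `s ≤ τ < t` -/
noncomputable def full {V : Type} (a b : V → ℕ) (Q : Finset V) (s t : ℕ) : Finset V :=
  Q.filter (fun v => s < t ∧ a v < t ∧ s ≤ b v)

/-- tiles contained in the time window `s ≤ τ < t` -/
noncomputable def cont {V : Type} (a b : V → ℕ) (Q : Finset V) (s t : ℕ) : Finset V :=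
  Q.filter (fun v => s ≤ a v ∧ b v < t)

/-- routes `Q ω` with weights `p ω` of total mass at most one -/
structure Laws {V Ω : Type} [Fintype Ω] (G : SimpleGraph V) (a b : V → ℕ) (p : Ω → ℝ)
    (Q : Ω → Finset V) : Prop where
  lt : ∀ v, a v < b v
  adj : ∀ ω ω', ∀ u ∈ Q ω, ∀ v ∈ Q ω', G.Adj u v → a u ≤ b v
  p0 : ∀ ω, 0 ≤ p ω
  p1 : ∑ ω, p ω ≤ 1
  route : ∀ ω, IsRoute G a b (Q ω)

/-- sets without independent `m`-set are hit with probability at most `δ` -/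
def Spread {V Ω : Type} [Fintype Ω] (G : SimpleGraph V) (m : ℕ) (δ : ℝ) (p : Ω → ℝ)
    (Q : Ω → Finset V) : Prop :=
  ∀ X : Finset V, Small G m X → ∑ ω, (if Disjoint (Q ω) X then 0 else p ω) ≤ δ

/-- two routes touch at time `τ` -/
def TAt {V Ω : Type} (G : SimpleGraph V) (a b : V → ℕ) (Q : Ω → Finset V) (ω ω' : Ω)
    (τ : ℕ) : Prop :=
  Touch G (full a b (Q ω) τ (τ + 1)) (full a b (Q ω') τ (τ + 1))

/-- contact probability in the window `s ≤ τ < t` for a relation depending on time -/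
noncomputable def c2 {Ω : Type} [Fintype Ω] (T : Ω → Ω → ℕ → Prop) (p : Ω → ℝ) (s t : ℕ) : ℝ :=
  ∑ ω, ∑ ω', p ω * p ω' * (if ∃ τ, s ≤ τ ∧ τ < t ∧ T ω ω' τ then 1 else 0)

/-- triple contact probability -/
noncomputable def c3 {Ω : Type} [Fintype Ω] (T : Ω → Ω → ℕ → Prop) (p : Ω → ℝ) (s t : ℕ) : ℝ :=
  ∑ ω, ∑ ω', ∑ ω'', p ω * p ω' * p ω'' *
    (if ∃ τ, s ≤ τ ∧ τ < t ∧ T ω ω' τ ∧ T ω ω'' τ ∧ T ω' ω'' τ then 1 else 0)

/-- contact mass of the contained parts -/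
noncomputable def cc {V Ω : Type} [Fintype Ω] (G : SimpleGraph V) (a b : V → ℕ)
    (p : Ω → ℝ) (Q : Ω → Finset V) (s t : ℕ) : ℝ :=
  ∑ ω, ∑ ω', p ω * p ω' * (if Touch G (cont a b (Q ω) s t) (cont a b (Q ω') s t) then 1 else 0)

/-- RA. a relation on windows: contact in a window means the tiles meeting the window touch -/
def StHelly : Prop :=
  ∀ (V Ω : Type) [Fintype Ω] (G : SimpleGraph V) (a b : V → ℕ) (p : Ω → ℝ) (Q : Ω → Finset V),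
  Laws G a b p Q → ∀ (s t : ℕ) (ω ω' : Ω),
  ((∃ τ, s ≤ τ ∧ τ < t ∧ TAt G a b Q ω ω' τ) ↔ Touch G (full a b (Q ω) s t) (full a b (Q ω') s t))

/-- RA. contact at one fixed time is rare -/
def StF1 : Prop :=
  ∀ (m : ℕ), 2 ≤ m → ∀ ε : ℝ, 0 < ε → ∃ δ : ℝ, 0 < δ ∧
  ∀ (V Ω : Type) [Fintype V] [Fintype Ω] (G : SimpleGraph V), NoKnn G m →
  ∀ (a b : V → ℕ) (p : Ω → ℝ) (Q : Ω → Finset V), Laws G a b p Q → Spread G m δ p Q →
  ∀ τ, c2 (TAt G a b Q) p τ (τ + 1) ≤ ε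

/-- RB. many contacts force many triple contacts -/
def StK3 : Prop :=
  ∀ (f : ℕ → ℕ) (c : ℝ), 0 < c → ∃ κ : ℝ, 0 < κ ∧
  ∀ (V Ω : Type) [Fintype V] [Fintype Ω] (G : SimpleGraph V), PwC f G →
  ∀ (a b : V → ℕ) (p : Ω → ℝ) (Q : Ω → Finset V), Laws G a b p Q →
  ∀ s t, c ≤ c2 (TAt G a b Q) p s t → κ ≤ c3 (TAt G a b Q) p s t

/-- RC. abstract greedy windows: either a partition into at most `N + 1` windows of contact
at most `β + ε`, or `N` consecutive windows of contact between `β` and `β + ε` -/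
def StGreedy : Prop :=
  ∀ (Ω : Type) [Fintype Ω] (T : Ω → Ω → ℕ → Prop) (p : Ω → ℝ) (β ε : ℝ), (∀ ω, 0 ≤ p ω) →
  0 < β → 0 ≤ ε → (∀ τ, c2 T p τ (τ + 1) ≤ ε) → ∀ (N s t : ℕ), s ≤ t →
  (∃ u : ℕ → ℕ, Monotone u ∧ u 0 = s ∧ u (N + 1) = t ∧
    ∀ i, i < N + 1 → c2 T p (u i) (u (i + 1)) ≤ β + ε) ∨
  (∃ u : ℕ → ℕ, Monotone u ∧ u 0 = s ∧ u N ≤ t ∧
    ∀ i, i < N → β ≤ c2 T p (u i) (u (i + 1)) ∧ c2 T p (u i) (u (i + 1)) ≤ β + ε)

/-- RC. abstract bursty partition -/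
def StBursty : Prop :=
  ∀ κ : ℝ, 0 < κ → ∃ (A : ℕ) (ε : ℝ), 0 < ε ∧
  ∀ (Ω : Type) [Fintype Ω] (T : Ω → Ω → ℕ → Prop) (p : Ω → ℝ), (∀ ω, 0 ≤ p ω) →
  ∑ ω, p ω ≤ 1 → (∀ ω ω' τ, T ω ω' τ → T ω' ω τ) → (∀ τ, c2 T p τ (τ + 1) ≤ ε) →
  ∀ s t, s ≤ t → κ ≤ c3 T p s t →
  ∃ u : ℕ → ℕ, Monotone u ∧ u 0 = s ∧ u A = t ∧
    3 * c2 T p s t ≤ ∑ i ∈ range A, c2 T p (u i) (u (i + 1))

/-- RB. contact of full parts forces contact of contained parts -/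
def StTR : Prop :=
  ∀ (f : ℕ → ℕ) (m : ℕ), 4 * f 4 + 2 ≤ m → ∀ c : ℝ, 0 < c → ∃ δ b1 : ℝ, 0 < δ ∧ 0 < b1 ∧
  ∀ (V Ω : Type) [Fintype V] [Fintype Ω] (G : SimpleGraph V), PwC f G →
  ∀ (a b : V → ℕ) (p : Ω → ℝ) (Q : Ω → Finset V), Laws G a b p Q → Spread G m δ p Q →
  ∀ s t, c ≤ c2 (TAt G a b Q) p s t → b1 ≤ cc G a b p Q s t

/-- RC. a window with contact but without horizontal pieces -/
def StNH : Prop :=
  ∀ (f : ℕ → ℕ) (m : ℕ), 4 * f 4 + 2 ≤ m → ∀ c θ : ℝ, 0 < c → 0 < θ →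
  ∃ δ β : ℝ, 0 < δ ∧ 0 < β ∧
  ∀ (V Ω : Type) [Fintype V] [Fintype Ω] (G : SimpleGraph V), PwC f G →
  ∀ (a b : V → ℕ) (p : Ω → ℝ) (Q : Ω → Finset V), Laws G a b p Q → Spread G m δ p Q →
  ∀ s t, s ≤ t → c ≤ c2 (TAt G a b Q) p s t →
  ∃ s' t', s ≤ s' ∧ s' ≤ t' ∧ t' ≤ t ∧ β ≤ c2 (TAt G a b Q) p s' t' ∧
    ∀ ω, ∑ ω', p ω' * (if Touch G (Q ω') (cont a b (Q ω) s' t') then 1 else 0) ≤ θ

/-- a tree of route pieces inside the window `s ≤ τ < t`, rooted at a whole route -/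
structure RTree {V Ω : Type} [Fintype Ω] (G : SimpleGraph V) (a b : V → ℕ) (p : Ω → ℝ)
    (Q : Ω → Finset V) (s t h : ℕ) (P : List Bool → Finset V) : Prop where
  tree : TreeLike G h P
  base : ∃ ω, 0 < p ω ∧ P [] = Q ω
  piece : ∀ x, x ≠ [] → x.length ≤ h → ∃ ω s' t', 0 < p ω ∧ s ≤ s' ∧ t' ≤ t ∧
    P x = cont a b (Q ω) s' t'

/-- RD. the claim for height `h` -/
def StClaim (f : ℕ → ℕ) (m h : ℕ) : Prop :=
  ∀ c : ℝ, 0 < c → ∃ δ : ℝ, 0 < δ ∧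
  ∀ (V Ω : Type) [Fintype V] [Fintype Ω] (G : SimpleGraph V), PwC f G →
  ∀ (a b : V → ℕ) (p : Ω → ℝ) (Q : Ω → Finset V), Laws G a b p Q → Spread G m δ p Q →
  ∀ s t, s ≤ t → c ≤ c2 (TAt G a b Q) p s t → ∃ P, RTree G a b p Q s t h P

/-- RD. induction step -/
def StStep : Prop :=
  ∀ (f : ℕ → ℕ) (m h : ℕ), 4 * f 4 + 2 ≤ m → StClaim f m h → StClaim f m (h + 1)

/-- RD. the theorem on random routes -/
def StA : Prop :=
  ∀ (f : ℕ → ℕ) (m : ℕ), 4 * f 4 + 2 ≤ m → ∀ c : ℝ, 0 < c → ∃ δ : ℝ, 0 < δ ∧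
  ∀ (V Ω : Type) [Fintype V] [Fintype Ω] (G : SimpleGraph V), PwC f G →
  ∀ (a b : V → ℕ) (p : Ω → ℝ) (Q : Ω → Finset V), Laws G a b p Q → Spread G m δ p Q →
  ∑ ω, ∑ ω', p ω * p ω' * (if Touch G (Q ω) (Q ω') then 1 else 0) < c

/-! ## 4. Rounding (modules BA, BB, BC, BD) -/

/-- `S` meets every connected part of `U` meeting `L` and `R` -/
def Separates {V : Type} (G : SimpleGraph V) (U L R S : Finset V) : Prop :=
  ∀ P : Finset V, P ⊆ U → ConnSet G P → Meets P L → Meets P R → Meets P S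

/-- separators of `U` between `L` and `R` have independence number larger than `N` -/
def High {V : Type} (G : SimpleGraph V) (U L R : Finset V) (N : ℕ) : Prop :=
  ∀ S : Finset V, AlphaLE G S N → ¬ Separates G U L R S

/-- all connections have weight at least `ℓ` -/
def LongP {V : Type} (G : SimpleGraph V) (U L R : Finset V) (lam : V → ℝ) (ℓ : ℝ) : Prop :=
  ∀ P : Finset V, P ⊆ U → ConnSet G P → Meets P L → Meets P R → ℓ ≤ ∑ v ∈ P, lam v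

/-- independent sets have weight at most `D` -/
def IndW {V : Type} (G : SimpleGraph V) (U : Finset V) (lam : V → ℝ) (D : ℝ) : Prop :=
  ∀ I : Finset V, I ⊆ U → G.IsIndepSet (I : Set V) → ∑ v ∈ I, lam v ≤ D

/-- rounding at density `n` with constant `F` -/
def RoundF (f : ℕ → ℕ) (n : ℝ) (F : ℕ) : Prop :=
  ∀ (V : Type) [Fintype V] (G : SimpleGraph V), PwC f G →
  ∀ (U L R : Finset V) (lam : V → ℝ) (ℓ : ℝ), 0 < ℓ → (∀ v, 0 ≤ lam v) →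
  LongP G U L R lam ℓ → IndW G U lam (n * ℓ) →
  ∃ S : Finset V, AlphaLE G S F ∧ Separates G U L R S

/-- BD. rounding -/
def StB : Prop := ∀ (f : ℕ → ℕ) (n : ℝ), ∃ F : ℕ, RoundF f n F

/-- induced paths `p 0, ..., p k` -/
structure IndPath {V : Type} (G : SimpleGraph V) (k : ℕ) (p : ℕ → V) : Prop where
  adj : ∀ i, i < k → G.Adj (p i) (p (i + 1))
  ind : ∀ i j, i + 1 < j → j ≤ k → p i ≠ p j ∧ ¬ G.Adj (p i) (p j)

/-- BA. induced paths inside connected sets -/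
def StIndPath : Prop :=
  ∀ (V : Type) [Fintype V] (G : SimpleGraph V) (P L R : Finset V), ConnSet G P → Meets P L →
  Meets P R → ∃ (k : ℕ) (p : ℕ → V), IndPath G k p ∧ (∀ i, i ≤ k → p i ∈ P) ∧ p 0 ∈ L ∧ p k ∈ R ∧
    (∀ i, 1 ≤ i → i ≤ k → p i ∉ L) ∧ (∀ i, i < k → p i ∉ R)

/-- BA. pointwise minimal weights: every vertex of positive weight is on a tight connection -/
def StMin : Prop :=
  ∀ (V : Type) [Fintype V] (G : SimpleGraph V) (U L R : Finset V) (lam : V → ℝ) (ℓ : ℝ),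
  0 < ℓ → (∀ v, 0 ≤ lam v) → LongP G U L R lam ℓ →
  ∃ lam' : V → ℝ, (∀ v, 0 ≤ lam' v) ∧ (∀ v, lam' v ≤ lam v) ∧ LongP G U L R lam' ℓ ∧
    ∀ v, 0 < lam' v → ∃ P : Finset V, P ⊆ U ∧ ConnSet G P ∧ v ∈ P ∧ Meets P L ∧ Meets P R ∧
      ∑ w ∈ P, lam' w = ℓ

/-- positions: the tile of `v` is `[a v, a v + lam v]`; `a v + lam v` is the distance from `L` -/
structure DistPos {V : Type} (G : SimpleGraph V) (U L : Finset V) (lam a : V → ℝ) : Prop where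
  nonneg : ∀ v, 0 ≤ lam v
  le : ∀ P : Finset V, P ⊆ U → ConnSet G P → Meets P L → ∀ v ∈ P, a v + lam v ≤ ∑ w ∈ P, lam w
  ex : ∀ v ∈ U, ∃ P : Finset V, P ⊆ U ∧ ConnSet G P ∧ Meets P L ∧ v ∈ P ∧
    ∑ w ∈ P, lam w = a v + lam v

/-- BA. positions exist on the part reachable from `L` -/
def StPos : Prop :=
  ∀ (V : Type) [Fintype V] (G : SimpleGraph V) (U L : Finset V) (lam : V → ℝ),
  (∀ v, 0 ≤ lam v) → ∃ (U' : Finset V) (a : V → ℝ), U' ⊆ U ∧ DistPos G U' L lam a ∧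
    (∀ P : Finset V, P ⊆ U → ConnSet G P → Meets P L → P ⊆ U')

/-- BA. consequences of `DistPos` -/
def StPosB : Prop :=
  ∀ (V : Type) [Fintype V] (G : SimpleGraph V) (U L : Finset V) (lam a : V → ℝ),
  DistPos G U L lam a →
  (∀ v ∈ U, 0 ≤ a v) ∧ (∀ v ∈ U, v ∈ L → a v = 0) ∧
  (∀ u ∈ U, ∀ v ∈ U, G.Adj u v → a u ≤ a v + lam v) ∧
  (∀ (R : Finset V) (ℓ : ℝ), LongP G U L R lam ℓ → ∀ v ∈ U, v ∈ R → ℓ ≤ a v + lam v)

/-- BA. the positions along a tight walk are the sums of the weights before it -/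
def StTightPos : Prop :=
  ∀ (V : Type) [Fintype V] (G : SimpleGraph V) (U L R : Finset V) (lam a : V → ℝ) (ℓ : ℝ),
  DistPos G U L lam a → LongP G U L R lam ℓ →
  ∀ (k : ℕ) (p : ℕ → V), (∀ i, i < k → G.Adj (p i) (p (i + 1))) → (∀ i, i ≤ k → p i ∈ U) →
  p 0 ∈ L → p k ∈ R → ∑ j ∈ range (k + 1), lam (p j) ≤ ℓ →
  ∀ i, i ≤ k → a (p i) = ∑ j ∈ range i, lam (p j)

/-- BA. tight connections are tight induced paths, tiling `[0, ℓ]` -/
def StTight : Prop :=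
  ∀ (V : Type) [Fintype V] (G : SimpleGraph V) (U L R : Finset V) (lam a : V → ℝ) (ℓ : ℝ),
  0 < ℓ → DistPos G U L lam a → LongP G U L R lam ℓ →
  ∀ P : Finset V, P ⊆ U → ConnSet G P → Meets P L → Meets P R → ∑ w ∈ P, lam w = ℓ →
  ∃ (k : ℕ) (p : ℕ → V), IndPath G k p ∧ (∀ i, i ≤ k → p i ∈ P) ∧ p 0 ∈ L ∧ p k ∈ R ∧
    (∀ i, 1 ≤ i → i ≤ k → p i ∉ L) ∧ (∀ i, i < k → p i ∉ R) ∧
    (∀ i, i ≤ k → a (p i) = ∑ j ∈ range i, lam (p j)) ∧ ∑ j ∈ range (k + 1), lam (p j) = ℓ ∧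
    (∀ v ∈ P, 0 < lam v → ∃ i, i ≤ k ∧ p i = v)

/-- tiles strictly inside the window `(s, t)` -/
noncomputable def win {V : Type} (U : Finset V) (lam a : V → ℝ) (s t : ℝ) : Finset V :=
  U.filter (fun v => s < a v ∧ a v + lam v < t)

/-- vertices of `W` whose tile starts at or before `x` -/
noncomputable def zoneL {V : Type} (W : Finset V) (a : V → ℝ) (x : ℝ) : Finset V :=
  W.filter (fun v => a v ≤ x)

/-- vertices of `W` whose tile ends at or after `x` -/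
noncomputable def zoneR {V : Type} (W : Finset V) (lam a : V → ℝ) (x : ℝ) : Finset V :=
  W.filter (fun v => x ≤ a v + lam v)

/-- tiles: nonnegative lengths, adjacent tiles meet -/
structure Tiles {V : Type} (G : SimpleGraph V) (U : Finset V) (lam a : V → ℝ) : Prop where
  nonneg : ∀ v, 0 ≤ lam v
  adj : ∀ u ∈ U, ∀ v ∈ U, G.Adj u v → a u ≤ a v + lam v

/-- `(s, t)` is a clean window with zones `z1`, `z2`: tiles of `U` meeting the zones are short -/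
structure Clean {V : Type} (U : Finset V) (lam a : V → ℝ) (s t z1 z2 : ℝ) : Prop where
  pos1 : 0 < z1
  pos2 : 0 < z2
  le : s + z1 ≤ t - z2
  left : ∀ v ∈ U, a v ≤ s + z1 → s ≤ a v + lam v → lam v < z1
  right : ∀ v ∈ U, a v ≤ t → t - z2 ≤ a v + lam v → lam v < z2

/-- BB. crossing lemma: a connected set reaching from the left to the right of a clean window
contains a crossing of the window by contained tiles -/
def StCross : Prop :=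
  ∀ (V : Type) [Fintype V] (G : SimpleGraph V) (U : Finset V) (lam a : V → ℝ),
  Tiles G U lam a → ∀ s t z1 z2 : ℝ, Clean U lam a s t z1 z2 →
  ∀ P : Finset V, P ⊆ U → ConnSet G P → (∃ x ∈ P, a x ≤ s + z1) →
  (∃ y ∈ P, t - z2 ≤ a y + lam y) →
  ∃ P' : Finset V, P' ⊆ P ∧ P' ⊆ win U lam a s t ∧ ConnSet G P' ∧ (∃ x ∈ P', a x ≤ s + z1) ∧
    (∃ y ∈ P', t - z2 ≤ a y + lam y)

/-- BB. connected sets cover the positions between two of their vertices -/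
def StCover : Prop :=
  ∀ (V : Type) [Fintype V] (G : SimpleGraph V) (U : Finset V) (lam a : V → ℝ),
  Tiles G U lam a → ∀ P : Finset V, P ⊆ U → ConnSet G P → ∀ x ∈ P, ∀ y ∈ P,
  a y + lam y - a x ≤ ∑ v ∈ P, lam v

/-- BB. the window instance: long paths and high connectivity -/
def StWin : Prop :=
  ∀ (V : Type) [Fintype V] (G : SimpleGraph V) (U L R X : Finset V) (lam a : V → ℝ)
  (s t z1 z2 : ℝ) (N C : ℕ), Tiles G U lam a → Clean (U \ X) lam a s t z1 z2 →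
  (∀ v ∈ U, v ∈ L → a v ≤ s + z1) → (∀ v ∈ U, v ∈ R → t - z2 ≤ a v + lam v) →
  AlphaLE G X C → High G U L R (N + C) →
  LongP G (win (U \ X) lam a s t) (zoneL (win (U \ X) lam a s t) a (s + z1))
    (zoneR (win (U \ X) lam a s t) lam a (t - z2)) lam (t - z2 - (s + z1)) ∧
  High G (win (U \ X) lam a s t) (zoneL (win (U \ X) lam a s t) a (s + z1))
    (zoneR (win (U \ X) lam a s t) lam a (t - z2)) N

/-- BB. consequence: clean windows have density at least `n` -/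
def StHeavy : Prop :=
  ∀ (f : ℕ → ℕ) (n : ℝ) (F : ℕ), RoundF f n F →
  ∀ (V : Type) [Fintype V] (G : SimpleGraph V), PwC f G →
  ∀ (U L R X : Finset V) (lam a : V → ℝ) (s t z1 z2 : ℝ) (C : ℕ),
  Tiles G U lam a → Clean (U \ X) lam a s t z1 z2 → s + z1 < t - z2 →
  (∀ v ∈ U, v ∈ L → a v ≤ s + z1) → (∀ v ∈ U, v ∈ R → t - z2 ≤ a v + lam v) →
  AlphaLE G X C → High G U L R (F + C) →
  ∃ I : Finset V, I ⊆ win (U \ X) lam a s t ∧ G.IsIndepSet (I : Set V) ∧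
    n * (t - z2 - (s + z1)) < ∑ v ∈ I, lam v

/-- the output of the domination step: weights `lam`, positions `a`, guards `KL`, `KR` -/
structure Guarded {V : Type} (G : SimpleGraph V) (U L R : Finset V) (lam a : V → ℝ) (ℓ : ℝ)
    (KL KR : Finset V) : Prop where
  pos : DistPos G U L lam a
  long : LongP G U L R lam ℓ
  tight : ∀ v, 0 < lam v → v ∈ U → ∃ P : Finset V, P ⊆ U ∧ ConnSet G P ∧ v ∈ P ∧ Meets P L ∧
    Meets P R ∧ ∑ w ∈ P, lam w = ℓ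
  subL : KL ⊆ U
  subR : KR ⊆ U
  connL : ConnSet G KL
  connR : ConnSet G KR
  omL : Om G (KL : Set V) 2
  omR : Om G (KR : Set V) 2
  posL : ∀ v ∈ KL, ℓ / 20 ≤ a v ∧ a v + lam v ≤ 33 * ℓ / 100
  posR : ∀ v ∈ KR, 67 * ℓ / 100 ≤ a v ∧ a v + lam v ≤ 19 * ℓ / 20
  domL : ∀ P : Finset V, P ⊆ U → ConnSet G P → Meets P L → Meets P R → Touch G P KL
  domR : ∀ P : Finset V, P ⊆ U → ConnSet G P → Meets P L → Meets P R → Touch G P KR

/-- BC. domination step -/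
def StDom : Prop :=
  ∀ (f : ℕ → ℕ) (n : ℝ) (F : ℕ), 0 ≤ n → RoundF f n F → ∃ (ρ : ℝ) (C : ℕ), 0 < ρ ∧
  ∀ (V : Type) [Fintype V] (G : SimpleGraph V), PwC f G →
  ∀ (U L R : Finset V) (lam : V → ℝ) (ℓ : ℝ) (N : ℕ), 0 < ℓ → (∀ v, 0 ≤ lam v) →
  (∀ v ∈ U, lam v ≤ ρ * ℓ) → LongP G U L R lam ℓ → IndW G U lam ((n + 1 / 100) * ℓ) →
  High G U L R (N + C) →
  ∃ (U' : Finset V) (lam' a : V → ℝ) (ℓ' : ℝ) (KL KR : Finset V), U' ⊆ U ∧
    (∀ v, lam' v ≤ lam v) ∧ ℓ ≤ ℓ' ∧ Guarded G U' L R lam' a ℓ' KL KR ∧ High G U' L R N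

/-- BC. finding the tiles `J` and the windows -/
def StLemE : Prop :=
  ∀ (f : ℕ → ℕ) (n : ℝ) (F : ℕ), 0 ≤ n → RoundF f n F → ∀ (γ : ℝ) (m : ℕ), 0 < γ → γ ≤ 1 →
  1 ≤ m → ∃ (ρ : ℝ) (C N0 : ℕ), 0 < ρ ∧
  ∀ (V : Type) [Fintype V] (G : SimpleGraph V), PwC f G →
  ∀ (U L R : Finset V) (lam a : V → ℝ) (ℓ : ℝ), 0 < ℓ → Tiles G U lam a →
  (∀ v ∈ U, 0 ≤ a v) → (∀ v ∈ U, v ∈ L → a v ≤ 0) → (∀ v ∈ U, v ∈ R → ℓ ≤ a v + lam v) →
  (∀ v ∈ U, lam v ≤ ρ * ℓ) → IndW G U lam ((n + γ / 100000) * ℓ) → High G U L R N0 →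
  ∃ (J X : Finset V) (w z : ℝ) (s : ℕ → ℝ), J ⊆ U ∧ G.IsIndepSet (J : Set V) ∧ J.card = m ∧
    AlphaLE G X C ∧ 0 < z ∧ 2 * z < w ∧
    (∀ q, q < 2 * m → 35 * ℓ / 100 ≤ s q ∧ s q + w ≤ 65 * ℓ / 100) ∧
    (∀ q q', q < q' → q' < 2 * m → s q + w ≤ s q') ∧
    (∀ v ∈ J, ∀ q, q < 2 * m → a v ≤ s q ∧ s q + w ≤ a v + lam v) ∧
    (∀ q, q < 2 * m → Clean (U \ X) lam a (s q) (s q + w) z z) ∧
    (∀ q, q < 2 * m → IndW G (win (U \ X) lam a (s q) (s q + w)) lam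
      ((n + γ) * (s q + w - z - (s q + z))))

/-- a tree structure of height `h` in `U` whose root joins `L` to `R` -/
structure TStr {V : Type} (G : SimpleGraph V) (U L R : Finset V) (h : ℕ)
    (P : List Bool → Finset V) : Prop where
  tree : TreeLike G h P
  sub : ∀ x, x.length ≤ h → P x ⊆ U
  rootL : Meets (P []) L
  rootR : Meets (P []) R
  om2 : Om G (P [] : Set V) 2
  om6 : ∀ x, x.length ≤ h → Om G (P x : Set V) 6
  free : ∀ x, x ≠ [] → x.length ≤ h → ¬ Meets (P x) L ∧ ¬ Meets (P x) R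

/-- structures of height `h` exist at density `n + γ` -/
def StS (f : ℕ → ℕ) (n γ : ℝ) (h : ℕ) : Prop :=
  ∃ N : ℕ, ∀ (V : Type) [Fintype V] (G : SimpleGraph V), PwC f G →
  ∀ (U L R : Finset V) (lam : V → ℝ) (ℓ : ℝ), 0 < ℓ → (∀ v, 0 ≤ lam v) →
  LongP G U L R lam ℓ → IndW G U lam ((n + γ) * ℓ) → High G U L R N →
  ∃ P : List Bool → Finset V, TStr G U L R h P

/-- BD. assembly -/
def StAsm : Prop :=
  ∀ (f : ℕ → ℕ) (n : ℝ) (F : ℕ), 0 ≤ n → RoundF f n F → ∀ (γ : ℝ) (h : ℕ), 0 < γ → γ ≤ 1 →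
  StS f n γ h → StS f n (γ / 100000) (h + 1)

/-- BD. base of the assembly -/
def StS0 : Prop := ∀ (f : ℕ → ℕ) (n γ : ℝ), StS f n γ 0

/-- BD. very low density: no connection at all -/
def StHalf : Prop := ∀ (f : ℕ → ℕ) (n : ℝ), n < 1 / 2 → RoundF f n 0

/-! ## 5. From rounding and random routes to a Menger theorem (module ME) -/

/-- MEa. saddle points of finite games -/
def StSaddle : Prop :=
  ∀ (Φ X : Type) [Fintype Φ] [Fintype X] [Nonempty Φ] [Nonempty X] (A : Φ → X → ℝ),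
  ∃ (σ : Φ → ℝ) (l : X → ℝ) (v : ℝ), (∀ φ, 0 ≤ σ φ) ∧ (∀ x, 0 ≤ l x) ∧ ∑ φ, σ φ = 1 ∧
    ∑ x, l x = 1 ∧ (∀ x, ∑ φ, σ φ * A φ x ≤ v) ∧ (∀ φ, v ≤ ∑ x, l x * A φ x)

/-- MEb. spread laws of routes -/
def StLaw : Prop :=
  ∀ (f : ℕ → ℕ) (m : ℕ) (δ : ℝ), 0 < δ → ∃ F : ℕ,
  ∀ (V : Type) [Fintype V] (G : SimpleGraph V), PwC f G →
  ∀ (A B : Finset V), High G univ A B F →
  ∃ (Ω : Type) (_ : Fintype Ω) (a b : V → ℕ) (p : Ω → ℝ) (Q : Ω → Finset V),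
    Laws G a b p Q ∧ ∑ ω, p ω = 1 ∧ Spread G m δ p Q ∧
    ∀ ω, 0 < p ω → ConnSet G (Q ω) ∧ Om G (Q ω : Set V) 2 ∧ Meets (Q ω) A ∧ Meets (Q ω) B

/-- MEc. Menger for independence number and anticomplete paths -/
def StMenger : Prop :=
  ∀ (f : ℕ → ℕ) (k : ℕ), ∃ F : ℕ,
  ∀ (V : Type) [Fintype V] (G : SimpleGraph V), PwC f G → ∀ (A B : Finset V),
  High G univ A B F → ∃ R : Fin k → Finset V,
    (∀ i, ConnSet G (R i) ∧ Om G (R i : Set V) 2 ∧ Meets (R i) A ∧ Meets (R i) B) ∧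
    ∀ i j, i ≠ j → ¬ Touch G (R i) (R j)

/-! ## 6. End game (module EN) -/

/-- ENa. balanced separators of bounded independence number -/
def StEnd : Prop :=
  ∀ (f : ℕ → ℕ), ∃ s0 K : ℕ, 1 ≤ K ∧
  ∀ (V : Type) [Fintype V] (G : SimpleGraph V), PwC f G → SepHyp G K s0

end Pool.Agent.Work.MP_44e7ab_co.Q
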