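import Pool.Agent.Work.MP_44e7ab_co.Q.Base

/-! Basic lemmas on touching sets, routes and contact sums, shared by all modules. -/

set_option autoImplicit false

namespace Pool.Agent.Work.MP_44e7ab_co.Q

open Finset Classical
open Pool.Agent.Work.MP_44e7ab_co

section basic

variable {V : Type} {G : SimpleGraph V}

lemma Touch.symm {A B : Finset V} (h : Touch G A B) : Touch G B A := by
  obtain ⟨x, hx, y, hy, h⟩ := h
  refine ⟨y, hy, x, hx, ?_⟩
  rcases h with h | h
  · exact Or.inl h.symm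
  · exact Or.inr h.symm

lemma Touch.mono {A B A' B' : Finset V} (h : Touch G A B) (hA : A ⊆ A') (hB : B ⊆ B') :
    Touch G A' B' := by
  obtain ⟨x, hx, y, hy, h⟩ := h
  exact ⟨x, hA hx, y, hB hy, h⟩

lemma Touch.left_nonempty {A B : Finset V} (h : Touch G A B) : A.Nonempty := by
  obtain ⟨x, hx, _⟩ := h
  exact ⟨x, hx⟩

lemma Touch.right_nonempty {A B : Finset V} (h : Touch G A B) : B.Nonempty :=
  h.symm.left_nonempty

lemma touch_self {A : Finset V} (h : A.Nonempty) : Touch G A A := by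
  obtain ⟨x, hx⟩ := h
  exact ⟨x, hx, x, hx, Or.inl rfl⟩

lemma Om.mono_set {W W' : Set V} {c : ℕ} (h : Om G W c) (hW : W' ⊆ W) : Om G W' c :=
  fun C hC hcl => h C (hC.trans hW) hcl

lemma Om.mono_nat {W : Set V} {c c' : ℕ} (h : Om G W c) (hc : c ≤ c') : Om G W c' :=
  fun C hC hcl => (h C hC hcl).trans hc

lemma om_union {W W' : Set V} {c c' : ℕ} (h : Om G W c) (h' : Om G W' c') :
    Om G (W ∪ W') (c + c') := by
  intro C hC hcl
  have h1 : (C.filter (fun v => v ∈ W)).card ≤ c := by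
    apply h
    · intro v hv
      simpa using (Finset.mem_filter.mp (by simpa using hv)).2
    · exact hcl.subset (by intro v hv; exact (Finset.mem_filter.mp (Finset.mem_coe.mp hv)).1)
  have h2 : (C.filter (fun v => ¬ v ∈ W)).card ≤ c' := by
    apply h'
    · intro v hv
      have hv' := Finset.mem_filter.mp (Finset.mem_coe.mp hv)
      rcases hC (Finset.mem_coe.mpr hv'.1) with h | h
      · exact absurd h hv'.2
      · exact h
    · exact hcl.subset (by intro v hv; exact (Finset.mem_filter.mp (Finset.mem_coe.mp hv)).1)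
  have h3 := Finset.card_filter_add_card_filter_not (s := C) (fun v => v ∈ W)
  omega

/-- a union of pairwise non-touching parts has the same clique bound -/
lemma om_iUnion_anti {ι : Type} {P : ι → Finset V} {c : ℕ} (h : ∀ x, Om G (P x : Set V) c)
    (hanti : ∀ x y, x ≠ y → ¬ Touch G (P x) (P y)) : Om G (⋃ x, (P x : Set V)) c := by
  intro C hC hcl
  rcases C.eq_empty_or_nonempty with rfl | ⟨v, hv⟩
  · simp
  · obtain ⟨x, hx⟩ := Set.mem_iUnion.mp (hC (Finset.mem_coe.mpr hv))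
    apply h x C _ hcl
    intro w hw
    obtain ⟨y, hy⟩ := Set.mem_iUnion.mp (hC hw)
    by_cases hxy : x = y
    · rw [hxy]; exact hy
    · exfalso
      apply hanti x y hxy
      refine ⟨v, by simpa using hx, w, by simpa using hy, ?_⟩
      by_cases hvw : v = w
      · exact Or.inl hvw
      · exact Or.inr (hcl (Finset.mem_coe.mpr hv) hw hvw)

lemma om_indep {I : Finset V} (h : G.IsIndepSet (I : Set V)) : Om G (I : Set V) 1 := by
  intro C hC hcl
  rw [Finset.card_le_one]
  intro x hx y hy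
  by_contra hxy
  exact h (hC (Finset.mem_coe.mpr hx)) (hC (Finset.mem_coe.mpr hy)) hxy
    (hcl (Finset.mem_coe.mpr hx) (Finset.mem_coe.mpr hy) hxy)

lemma connSet_singleton (v : V) : ConnSet G {v} := by
  intro x hx y hy
  rw [Finset.mem_singleton] at hx hy
  subst hx; subst hy
  exact ConnIn.refl (by simp)

lemma connSet_empty : ConnSet G (∅ : Finset V) := by
  intro x hx
  simp at hx

lemma connSet_union {A B : Finset V} (hA : ConnSet G A) (hB : ConnSet G B)
    (h : Touch G A B) : ConnSet G (A ∪ B) := by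
  obtain ⟨x, hx, y, hy, hxy⟩ := h
  have hA' : ∀ u ∈ A, ConnIn G ((A ∪ B : Finset V) : Set V) x u := by
    intro u hu
    exact (hA x hx u hu).mono (by intro z hz; simp at hz ⊢; exact Or.inl hz)
  have hB' : ∀ u ∈ B, ConnIn G ((A ∪ B : Finset V) : Set V) y u := by
    intro u hu
    exact (hB y hy u hu).mono (by intro z hz; simp at hz ⊢; exact Or.inr hz)
  have hxy' : ConnIn G ((A ∪ B : Finset V) : Set V) x y := by
    rcases hxy with h | h
    · subst h
      exact hA' x hx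
    · exact ConnIn.adj h (by simp [hx]) (by simp [hy])
  have key : ∀ u ∈ A ∪ B, ConnIn G ((A ∪ B : Finset V) : Set V) x u := by
    intro u hu
    rcases Finset.mem_union.mp hu with h | h
    · exact hA' u h
    · exact hxy'.trans (hB' u h)
  intro u hu v hv
  exact (key u hu).symm.trans (key v hv)

lemma Meets.mono {P P' A : Finset V} (h : Meets P A) (hP : P ⊆ P') : Meets P' A := by
  obtain ⟨x, hx, hxA⟩ := h
  exact ⟨x, hP hx, hxA⟩

end basic

section routes

variable {V : Type} {G : SimpleGraph V} {a b : V → ℕ} {Q : Finset V}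

lemma mem_full {v : V} {s t : ℕ} :
    v ∈ full a b Q s t ↔ v ∈ Q ∧ s < t ∧ a v < t ∧ s ≤ b v := by
  simp [full]

lemma mem_cont {v : V} {s t : ℕ} : v ∈ cont a b Q s t ↔ v ∈ Q ∧ s ≤ a v ∧ b v < t := by
  simp [cont]

lemma full_subset {s t : ℕ} : full a b Q s t ⊆ Q := Finset.filter_subset _ _

lemma cont_subset {s t : ℕ} : cont a b Q s t ⊆ Q := Finset.filter_subset _ _

lemma cont_subset_full (hab : ∀ v, a v < b v) {s t : ℕ} : cont a b Q s t ⊆ full a b Q s t := by
  intro v hv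
  rw [mem_cont] at hv
  rw [mem_full]
  have := hab v
  exact ⟨hv.1, by omega, by omega, by omega⟩

lemma full_mono {s t s' t' : ℕ} (hs : s' ≤ s) (ht : t ≤ t') :
    full a b Q s t ⊆ full a b Q s' t' := by
  intro v hv
  rw [mem_full] at hv ⊢
  exact ⟨hv.1, by omega, by omega, by omega⟩

lemma cont_mono {s t s' t' : ℕ} (hs : s' ≤ s) (ht : t ≤ t') :
    cont a b Q s t ⊆ cont a b Q s' t' := by
  intro v hv
  rw [mem_cont] at hv ⊢
  exact ⟨hv.1, by omega, by omega⟩

lemma cont_cont {s t s' t' : ℕ} (hs : s ≤ s') (ht : t' ≤ t) :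
    cont a b (cont a b Q s t) s' t' = cont a b Q s' t' := by
  ext v
  simp only [mem_cont]
  constructor
  · rintro ⟨⟨h1, _, _⟩, h2, h3⟩
    exact ⟨h1, h2, h3⟩
  · rintro ⟨h1, h2, h3⟩
    exact ⟨⟨h1, by omega, by omega⟩, h2, h3⟩

lemma isRoute_empty : IsRoute G a b (∅ : Finset V) :=
  ⟨by simp, by simp, by simp⟩

/-- a convex part of a route is a route -/
lemma IsRoute.filter (hab : ∀ v, a v < b v) (hQ : IsRoute G a b Q) (p : V → Prop)
    [DecidablePred p]
    (hp : ∀ u ∈ Q, ∀ v ∈ Q, ∀ w ∈ Q, p u → p w → b u ≤ a v → b v ≤ a w → p v) :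
    IsRoute G a b (Q.filter p) := by
  refine ⟨?_, ?_, ?_⟩
  · intro v hv w hw hvw
    exact hQ.disj v (Finset.mem_filter.mp hv).1 w (Finset.mem_filter.mp hw).1 hvw
  · intro v hv w hw hvw
    rw [Finset.mem_filter] at hv hw
    obtain ⟨u, hu, hau, hadj⟩ := hQ.next v hv.1 w hw.1 hvw
    refine ⟨u, ?_, hau, hadj⟩
    rw [Finset.mem_filter]
    refine ⟨hu, ?_⟩
    by_cases huw : u = w
    · rw [huw]; exact hw.2
    · apply hp v hv.1 u hu w hw.1 hv.2 hw.2 (by omega)
      rcases hQ.disj u hu w hw.1 huw with h | h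
      · exact h
      · have h1 := hab w
        omega
  · intro v hv w hw hadj
    exact hQ.ind v (Finset.mem_filter.mp hv).1 w (Finset.mem_filter.mp hw).1 hadj

lemma isRoute_cont (hab : ∀ v, a v < b v) (hQ : IsRoute G a b Q) (s t : ℕ) :
    IsRoute G a b (cont a b Q s t) := by
  unfold cont
  apply hQ.filter hab
  intro u _ v _ w _ hu hw h1 h2
  have := hab u
  have := hab v
  have := hab w
  omega

lemma isRoute_full (hab : ∀ v, a v < b v) (hQ : IsRoute G a b Q) (s t : ℕ) :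
    IsRoute G a b (full a b Q s t) := by
  unfold full
  apply hQ.filter hab
  intro u _ v _ w _ hu hw h1 h2
  have := hab u
  have := hab v
  have := hab w
  omega

lemma IsRoute.conn (hab : ∀ v, a v < b v) (hQ : IsRoute G a b Q) : ConnSet G Q := by
  have key : ∀ (n : ℕ) (v w : V), v ∈ Q → w ∈ Q → b v ≤ a w → a w - b v ≤ n →
      ConnIn G (Q : Set V) v w := by
    intro n
    induction n using Nat.strong_induction_on with
    | _ n ih =>
      intro v w hv hw hvw hn
      obtain ⟨u, hu, hau, hadj⟩ := hQ.next v hv w hw hvw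
      have h1 : ConnIn G (Q : Set V) v u := ConnIn.adj hadj (by simpa using hv) (by simpa using hu)
      by_cases huw : u = w
      · rw [← huw]; exact h1
      · refine h1.trans ?_
        rcases hQ.disj u hu w hw huw with h | h
        · have h2 := hab u
          by_cases h0 : a w - b u < n
          · exact ih (a w - b u) h0 u w hu hw h le_rfl
          · omega
        · have h2 := hab w
          omega
  intro v hv w hw
  by_cases hvw : v = w
  · rw [hvw]; exact ConnIn.refl (by simpa using hw)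
  · rcases hQ.disj v hv w hw hvw with h | h
    · exact key _ v w hv hw h le_rfl
    · exact (key _ w v hw hv h le_rfl).symm

lemma IsRoute.om (hab : ∀ v, a v < b v) (hQ : IsRoute G a b Q) : Om G (Q : Set V) 2 := by
  intro C hC hcl
  by_contra hcard
  push Not at hcard
  obtain ⟨x, y, z, hx, hy, hz, hxy, hxz, hyz⟩ := Finset.two_lt_card_iff.mp hcard
  have hx' := hC (Finset.mem_coe.mpr hx)
  have hy' := hC (Finset.mem_coe.mpr hy)
  have hz' := hC (Finset.mem_coe.mpr hz)
  have h1 := hQ.ind x (by simpa using hx') y (by simpa using hy')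
    (hcl (Finset.mem_coe.mpr hx) (Finset.mem_coe.mpr hy) hxy)
  have h2 := hQ.ind x (by simpa using hx') z (by simpa using hz')
    (hcl (Finset.mem_coe.mpr hx) (Finset.mem_coe.mpr hz) hxz)
  have h3 := hQ.ind y (by simpa using hy') z (by simpa using hz')
    (hcl (Finset.mem_coe.mpr hy) (Finset.mem_coe.mpr hz) hyz)
  have := hab x
  have := hab y
  have := hab z
  omega

/-- at most two tiles contain a given time -/
lemma IsRoute.card_at (hab : ∀ v, a v < b v) (hQ : IsRoute G a b Q) (τ : ℕ) :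
    (full a b Q τ (τ + 1)).card ≤ 2 := by
  by_contra hcard
  push Not at hcard
  obtain ⟨x, y, z, hx, hy, hz, hxy, hxz, hyz⟩ := Finset.two_lt_card_iff.mp hcard
  rw [mem_full] at hx hy hz
  have h1 := hQ.disj x hx.1 y hy.1 hxy
  have h2 := hQ.disj x hx.1 z hz.1 hxz
  have h3 := hQ.disj y hy.1 z hz.1 hyz
  have := hab x
  have := hab y
  have := hab z
  omega

end routes

section laws

variable {V Ω : Type} [Fintype Ω] {G : SimpleGraph V} {a b : V → ℕ} {p : Ω → ℝ}
  {Q : Ω → Finset V}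

lemma Laws.weights (h : Laws G a b p Q) {p' : Ω → ℝ} (h0 : ∀ ω, 0 ≤ p' ω)
    (hle : ∀ ω, p' ω ≤ p ω) : Laws G a b p' Q :=
  ⟨h.lt, h.adj, h0, (Finset.sum_le_sum fun ω _ => hle ω).trans h.p1, h.route⟩

lemma laws_cont (h : Laws G a b p Q) (s t : ℕ) : Laws G a b p (fun ω => cont a b (Q ω) s t) :=
  ⟨h.lt, fun ω ω' u hu v hv => h.adj ω ω' u (cont_subset hu) v (cont_subset hv), h.p0, h.p1,
    fun ω => isRoute_cont h.lt (h.route ω) s t⟩

lemma Spread.weights {m : ℕ} {δ : ℝ} (h : Spread G m δ p Q) {p' : Ω → ℝ}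
    (hle : ∀ ω, p' ω ≤ p ω) : Spread G m δ p' Q := by
  intro X hX
  refine le_trans (Finset.sum_le_sum fun ω _ => ?_) (h X hX)
  split_ifs
  · exact le_rfl
  · exact hle ω

lemma Spread.subset {m : ℕ} {δ : ℝ} (h : Spread G m δ p Q) (hp : ∀ ω, 0 ≤ p ω)
    {Q' : Ω → Finset V} (hsub : ∀ ω, Q' ω ⊆ Q ω) : Spread G m δ p Q' := by
  intro X hX
  refine le_trans (Finset.sum_le_sum fun ω _ => ?_) (h X hX)
  by_cases h1 : Disjoint (Q ω) X
  · rw [if_pos h1, if_pos (Finset.disjoint_of_subset_left (hsub ω) h1)]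
  · rw [if_neg h1]
    split_ifs
    · exact hp ω
    · exact le_rfl

lemma Spread.mono {m : ℕ} {δ δ' : ℝ} (h : Spread G m δ p Q) (hδ : δ ≤ δ') : Spread G m δ' p Q :=
  fun X hX => (h X hX).trans hδ

/-- tiles of adjacent or equal vertices meet -/
lemma Laws.meet (h : Laws G a b p Q) {ω ω' : Ω} {u v : V} (hu : u ∈ Q ω) (hv : v ∈ Q ω')
    (huv : u = v ∨ G.Adj u v) : a u ≤ b v ∧ a v ≤ b u := by
  rcases huv with rfl | huv
  · exact ⟨(h.lt u).le, (h.lt u).le⟩
  · exact ⟨h.adj ω ω' u hu v hv huv, h.adj ω' ω v hv u hu huv.symm⟩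

lemma laws_no_touch (h : Laws G a b p Q) (ω ω' : Ω) {s t s' t' : ℕ} (ht : t ≤ s') :
    ¬ Touch G (cont a b (Q ω) s t) (cont a b (Q ω') s' t') := by
  rintro ⟨u, hu, v, hv, huv⟩
  rw [mem_cont] at hu hv
  have h1 := h.meet hu.1 hv.1 huv
  omega

lemma laws_touch_full (h : Laws G a b p Q) {ω ω' : Ω} {s t : ℕ}
    (hT : Touch G (Q ω') (cont a b (Q ω) s t)) :
    Touch G (full a b (Q ω') s t) (cont a b (Q ω) s t) := by
  obtain ⟨u, hu, v, hv, huv⟩ := hT
  refine ⟨u, ?_, v, hv, huv⟩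
  rw [mem_cont] at hv
  have h1 := h.meet hu hv.1 huv
  have h2 := h.lt v
  rw [mem_full]
  exact ⟨hu, by omega, by omega, by omega⟩

theorem helly : StHelly := by
  intro V Ω _ G a b p Q h s t ω ω'
  constructor
  · rintro ⟨τ, hs, ht, hT⟩
    exact hT.mono (full_mono hs ht) (full_mono hs ht)
  · rintro ⟨u, hu, v, hv, huv⟩
    rw [mem_full] at hu hv
    have h1 := h.meet hu.1 hv.1 huv
    have h2 := h.lt u
    have h3 := h.lt v
    refine ⟨max s (max (a u) (a v)), by omega, by omega, u, ?_, v, ?_, huv⟩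
    · rw [mem_full]
      exact ⟨hu.1, by omega, by omega, by omega⟩
    · rw [mem_full]
      exact ⟨hv.1, by omega, by omega, by omega⟩

end laws

section contact

variable {Ω : Type} [Fintype Ω] {T : Ω → Ω → ℕ → Prop} {p : Ω → ℝ}

lemma c2_nonneg (hp : ∀ ω, 0 ≤ p ω) (s t : ℕ) : 0 ≤ c2 T p s t := by
  apply Finset.sum_nonneg; intro ω _
  apply Finset.sum_nonneg; intro ω' _
  apply mul_nonneg (mul_nonneg (hp _) (hp _))
  split_ifs <;> norm_num

lemma c2_le_one (hp : ∀ ω, 0 ≤ p ω) (h1 : ∑ ω, p ω ≤ 1) (s t : ℕ) : c2 T p s t ≤ 1 := by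
  calc c2 T p s t ≤ ∑ ω, ∑ ω', p ω * p ω' := by
        apply Finset.sum_le_sum; intro ω _
        apply Finset.sum_le_sum; intro ω' _
        have := mul_nonneg (hp ω) (hp ω')
        split_ifs <;> simp [this]
    _ = (∑ ω, p ω) * ∑ ω', p ω' := by rw [Finset.sum_mul_sum]
    _ ≤ 1 := by
        have h0 : 0 ≤ ∑ ω, p ω := Finset.sum_nonneg fun ω _ => hp ω
        nlinarith

lemma c2_empty (s t : ℕ) (h : t ≤ s) : c2 T p s t = 0 := by
  unfold c2
  apply Finset.sum_eq_zero; intro ω _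
  apply Finset.sum_eq_zero; intro ω' _
  rw [if_neg, mul_zero]
  rintro ⟨τ, h1, h2, _⟩
  omega

lemma c2_mono (hp : ∀ ω, 0 ≤ p ω) {s t s' t' : ℕ} (hs : s' ≤ s) (ht : t ≤ t') :
    c2 T p s t ≤ c2 T p s' t' := by
  apply Finset.sum_le_sum; intro ω _
  apply Finset.sum_le_sum; intro ω' _
  apply mul_le_mul_of_nonneg_left _ (mul_nonneg (hp _) (hp _))
  by_cases h : ∃ τ, s ≤ τ ∧ τ < t ∧ T ω ω' τ
  · obtain ⟨τ, h1, h2, h3⟩ := h
    rw [if_pos ⟨τ, h1, h2, h3⟩, if_pos ⟨τ, by omega, by omega, h3⟩]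
  · rw [if_neg h]
    split_ifs <;> norm_num

lemma c2_split (hp : ∀ ω, 0 ≤ p ω) (s u t : ℕ) :
    c2 T p s t ≤ c2 T p s u + c2 T p u t := by
  unfold c2
  rw [← Finset.sum_add_distrib]
  apply Finset.sum_le_sum; intro ω _
  rw [← Finset.sum_add_distrib]
  apply Finset.sum_le_sum; intro ω' _
  rw [← mul_add]
  apply mul_le_mul_of_nonneg_left _ (mul_nonneg (hp _) (hp _))
  by_cases h : ∃ τ, s ≤ τ ∧ τ < t ∧ T ω ω' τ
  · obtain ⟨τ, h1, h2, h3⟩ := h
    rw [if_pos ⟨τ, h1, h2, h3⟩]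
    by_cases hu : τ < u
    · rw [if_pos ⟨τ, h1, hu, h3⟩]
      split_ifs <;> norm_num
    · have hr : ∃ τ, u ≤ τ ∧ τ < t ∧ T ω ω' τ := ⟨τ, by omega, h2, h3⟩
      rw [if_pos hr]
      split_ifs <;> norm_num
  · rw [if_neg h]
    split_ifs <;> norm_num

lemma c2_le_sum (hp : ∀ ω, 0 ≤ p ω) (u : ℕ → ℕ) (N : ℕ) :
    c2 T p (u 0) (u N) ≤ ∑ i ∈ range N, c2 T p (u i) (u (i + 1)) := by
  induction N with
  | zero => simp [c2_empty (T := T) (p := p) (u 0) (u 0) le_rfl]
  | succ N ih =>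
    rw [Finset.sum_range_succ]
    have := c2_split (T := T) hp (u 0) (u N) (u (N + 1))
    linarith

end contact

end Pool.Agent.Work.MP_44e7ab_co.Q
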